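import Pool.Agent.H74.G.R_seed8.H718R2.G0

/-!
# `SL(2, ℝ)`-extensions: definitions

`V n = ℝⁿ`, `DiffM n N r = Diff^r(N)`, `strongTop n N r` is its strong (Whitney) `C^r` topology,
`IsPer G z`: `z` is periodic for `G` (`Pool/Agent/H718R2/G0.lean`).
-/

set_option autoImplicit false

open scoped Manifold ContDiff Topology

universe u

namespace Pool.Agent.TH382.QC

open Pool.Agent.H718R2.G

/-- `SL(2, ℝ)` -/
abbrev SL2 := Matrix.SpecialLinearGroup (Fin 2) ℝ

theorem rot_det (s : ℝ) : Matrix.det !![Real.cos s, -Real.sin s; Real.sin s, Real.cos s] = 1 := by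
  rw [Matrix.det_fin_two_of]
  nlinarith [Real.sin_sq_add_cos_sq s]

/-- the rotation by the angle `s` -/
noncomputable def rot (s : ℝ) : SL2 :=
  ⟨!![Real.cos s, -Real.sin s; Real.sin s, Real.cos s], rot_det s⟩

/-- `ρ` is an action of the group `SL(2, ℝ)` on `N` such that the rotations act smoothly. -/
structure IsAct (n : ℕ) (N : Type u) [TopologicalSpace N] [ChartedSpace (V n) N]
    (ρ : SL2 → N → N) : Prop where
  one : ∀ y, ρ 1 y = y
  mul : ∀ g h y, ρ (g * h) y = ρ g (ρ h y)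
  smooth : ContMDiff (𝓘(ℝ, ℝ).prod (𝓡 n)) (𝓡 n) ∞ (fun q : ℝ × N => ρ (rot q.1) q.2)

/-- `f` commutes with the action `ρ`. -/
def Commutes {N : Type u} (ρ : SL2 → N → N) (f : N → N) : Prop := ∀ g y, f (ρ g y) = ρ g (f y)

/-- `F y = A(y) · F₀(y)`, where `A` is continuous and invariant under the action `ρ` and `F₀` commutes
with it. -/
structure IsExt (n : ℕ) (N : Type u) [TopologicalSpace N] [ChartedSpace (V n) N] (r : ℕ∞)
    (ρ : SL2 → N → N) (A : N → SL2) (F₀ F : DiffM n N r) : Prop where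
  cont : ∀ i l, Continuous (fun y => (A y).1 i l)
  inv : ∀ g y, A (ρ g y) = A y
  comm : Commutes ρ F₀
  eq : ∀ y, F y = ρ (A y) (F₀ y)

/-- The cocycle over `f` defined by `A`: `coc A f m y = A (f^(m-1) y) ⋯ A (f y) A y`. -/
noncomputable def coc {N : Type u} (A : N → SL2) (f : N → N) : ℕ → N → SL2
  | 0, _ => 1
  | m + 1, y => A (f^[m] y) * coc A f m y

/-- The cocycle over `f` defined by `A` is uniformly hyperbolic over the set `K`: its products grow
exponentially, uniformly over `K`. -/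
def UnifHypOn {N : Type u} (A : N → SL2) (f : N → N) (K : Set N) : Prop :=
  ∃ c κ : ℝ, 0 < c ∧ 1 < κ ∧ ∀ y ∈ K, ∀ m : ℕ, c * κ ^ m ≤ ∑ i, ∑ l, |(coc A f m y).1 i l|

/-- The full orbit of `z` under the bijection `f`. -/
def orbit {N : Type u} (f : N → N) (z : N) : Set N := {y | ∃ j : ℕ, f^[j] z = y ∨ f^[j] y = z}

/-- The cocycle over `F₀` defined by `A` is uniformly hyperbolic over the closure of the full orbit of
`z`. -/
def UnifHyp (n : ℕ) (N : Type u) [TopologicalSpace N] [ChartedSpace (V n) N] (r : ℕ∞)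
    (A : N → SL2) (F₀ : DiffM n N r) (z : N) : Prop :=
  UnifHypOn A F₀ (closure (orbit F₀ z))

/-- The conclusion of the `C^r` closing lemma at `z`: every neighbourhood of `F` in `Diff^r(N)` contains
some `G` for which `z` is periodic. -/
def ClosableAt (n : ℕ) (N : Type u) [TopologicalSpace N] [ChartedSpace (V n) N] (r : ℕ∞)
    (F : DiffM n N r) (z : N) : Prop :=
  ∀ U : Set (DiffM n N r), IsOpen[strongTop n N r] U → F ∈ U → ∃ G ∈ U, IsPer G z

/-- Every neighbourhood of `F` in `Diff^r(N)` contains some `G` which commutes with the action `ρ` and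
for which `z` is periodic. -/
def EquivClosable (n : ℕ) (N : Type u) [TopologicalSpace N] [ChartedSpace (V n) N] (r : ℕ∞)
    (ρ : SL2 → N → N) (F : DiffM n N r) (z : N) : Prop :=
  ∀ U : Set (DiffM n N r), IsOpen[strongTop n N r] U → F ∈ U → ∃ G ∈ U, Commutes ρ G ∧ IsPer G z

/-- `R` is a smooth action of the torus `𝕋^d = ℝ^d / ℤ^d` on `N`. -/
structure IsTorusAct (d n : ℕ) (N : Type u) [TopologicalSpace N] [ChartedSpace (V n) N]
    (R : V d → N → N) : Prop where
  smooth : ContMDiff ((𝓡 d).prod (𝓡 n)) (𝓡 n) ∞ (fun q : V d × N => R q.1 q.2)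
  zero : ∀ y, R 0 y = y
  add : ∀ a b y, R (a + b) y = R a (R b y)
  int : ∀ a : V d, (∀ j, ∃ m : ℤ, a j = (m : ℝ)) → ∀ y, R a y = y

end Pool.Agent.TH382.QC
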